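import Pool.Agent.H5CS.Wr

/-!
Free groups are conjugacy separable (helper5, package B of row 1365).
-/

set_option autoImplicit false

namespace Pool.Agent.H5CS

open FreeGroup (of)

universe u

variable {X : Type u} {p : ℕ}

/-- weighted exponent sum of a word -/
def sm {R : Type*} [AddCommGroup R] (φ : X → R) (L : List (X × Bool)) : R :=
  (L.map (fun q => cond q.2 (φ q.1) (-φ q.1))).sum

theorem Th_t (x0 : X) (φ : X → ZMod p) : ∀ L : List (X × Bool),
    (Th x0 φ (FreeGroup.mk L)).t = sm φ L := by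
  intro L
  induction L with
  | nil => simp [sm, ← FreeGroup.one_eq_mk]
  | cons q L ih =>
    obtain ⟨x, b⟩ := q
    have hs : FreeGroup.mk ((x, b) :: L) = FreeGroup.mk [(x, b)] * FreeGroup.mk L := by
      rw [FreeGroup.mul_mk]; rfl
    rw [hs, map_mul, Wr.mul_t, ih]
    have h2 : sm φ ((x, b) :: L) = cond b (φ x) (-φ x) + sm φ L := by simp [sm]
    rw [h2]
    congr 1
    cases b
    · have h1 : FreeGroup.mk [(x, false)] = (of x)⁻¹ := by
        simp [FreeGroup.of, FreeGroup.inv_mk, FreeGroup.invRev]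
      rw [h1, map_inv, Wr.inv_t, Th_of]
      rfl
    · have h1 : FreeGroup.mk [(x, true)] = (of x) := rfl
      rw [h1, Th_of]
      rfl

open Classical in
/-- indicator of a letter -/
noncomputable def ind (R : Type*) [Ring R] (x : X) : X → R := fun z => if z = x then 1 else 0

theorem sm_two (x y : X) (φ : X → ZMod p) (h : ∀ z, z ≠ x → z ≠ y → φ z = 0) (hxy : x ≠ y)
    (L : List (X × Bool)) :
    sm φ L = φ x * ((sm (ind ℤ x) L : ℤ) : ZMod p) + φ y * ((sm (ind ℤ y) L : ℤ) : ZMod p) := by
  induction L with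
  | nil => simp [sm]
  | cons q L ih =>
    obtain ⟨z, b⟩ := q
    have h2 : sm φ ((z, b) :: L) = cond b (φ z) (-φ z) + sm φ L := by simp [sm]
    have h3 : ∀ w : X, sm (ind ℤ w) ((z, b) :: L) = cond b (ind ℤ w z) (-ind ℤ w z)
        + sm (ind ℤ w) L := by intro w; simp [sm]
    rw [h2, h3, h3, ih]
    have h4 : φ z = φ x * ((ind ℤ x z : ℤ) : ZMod p) + φ y * ((ind ℤ y z : ℤ) : ZMod p) := by
      unfold ind
      by_cases hx : z = x
      · subst hx
        simp [hxy]
      · by_cases hy : z = y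
        · subst hy
          simp [hx]
        · simp [hx, hy, h z hx hy]
    cases b
    · simp only [cond_false]
      push_cast
      rw [h4]
      ring
    · simp only [cond_true]
      push_cast
      rw [h4]
      ring

theorem sm_one (x : X) (L : List (X × Bool)) (m : ℕ) :
    sm (ind (ZMod m) x) L = ((sm (ind ℤ x) L : ℤ) : ZMod m) := by
  induction L with
  | nil => simp [sm]
  | cons q L ih =>
    obtain ⟨z, b⟩ := q
    have h2 : sm (ind (ZMod m) x) ((z, b) :: L) = cond b (ind (ZMod m) x z) (-ind (ZMod m) x z)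
      + sm (ind (ZMod m) x) L := by simp [sm]
    have h3 : sm (ind ℤ x) ((z, b) :: L) = cond b (ind ℤ x z) (-ind ℤ x z)
        + sm (ind ℤ x) L := by simp [sm]
    rw [h2, h3, ih]
    have h4 : ind (ZMod m) x z = ((ind ℤ x z : ℤ) : ZMod m) := by
      unfold ind
      split_ifs <;> simp
    cases b
    · simp only [cond_false]
      push_cast
      rw [h4]
    · simp only [cond_true]
      push_cast
      rw [h4]

theorem all_same (x : X) (L : List (X × Bool)) (h : ∀ q ∈ L, q.1 = x) :
    FreeGroup.mk L = (of x) ^ (sm (ind ℤ x) L) := by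
  induction L with
  | nil => simp [sm, ← FreeGroup.one_eq_mk]
  | cons q L ih =>
    obtain ⟨z, b⟩ := q
    have hz : z = x := h (z, b) (by simp)
    subst hz
    have hs : FreeGroup.mk ((z, b) :: L) = FreeGroup.mk [(z, b)] * FreeGroup.mk L := by
      rw [FreeGroup.mul_mk]; rfl
    have h3 : sm (ind ℤ z) ((z, b) :: L) = cond b 1 (-1) + sm (ind ℤ z) L := by
      simp [sm, ind]
    rw [hs, h3, zpow_add, ih (fun q hq => h q (by simp [hq]))]
    congr 1
    cases b
    · have h1 : FreeGroup.mk [(z, false)] = (of z)⁻¹ := by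
        simp [FreeGroup.of, FreeGroup.inv_mk, FreeGroup.invRev]
      rw [h1]
      simp
    · have h1 : FreeGroup.mk [(z, true)] = (of z) := rfl
      rw [h1]
      simp

/-- separated in a finite quotient -/
def Sepd (u v : FreeGroup X) : Prop :=
  ∃ (Q : Type) (_ : Group Q) (_ : Finite Q) (ψ : FreeGroup X →* Q), ¬ IsConj (ψ u) (ψ v)

theorem Sepd.symm {u v : FreeGroup X} (h : Sepd u v) : Sepd v u := by
  obtain ⟨Q, g, f, ψ, h⟩ := h
  exact ⟨Q, g, f, ψ, fun hc => h hc.symm⟩

theorem sep_of_exp {x : X} {L M : List (X × Bool)} (h : sm (ind ℤ x) L ≠ sm (ind ℤ x) M) :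
    Sepd (FreeGroup.mk L) (FreeGroup.mk M) := by
  set d : ℤ := sm (ind ℤ x) L - sm (ind ℤ x) M with hd
  have hd0 : d ≠ 0 := sub_ne_zero.2 h
  let m : ℕ := d.natAbs + 1
  have : NeZero m := ⟨by omega⟩
  let ψ : FreeGroup X →* Multiplicative (ZMod m) :=
    FreeGroup.lift (fun z => Multiplicative.ofAdd (ind (ZMod m) x z))
  have hψ : ∀ N : List (X × Bool), ψ (FreeGroup.mk N) =
      Multiplicative.ofAdd ((sm (ind ℤ x) N : ℤ) : ZMod m) := by
    intro N
    rw [← sm_one]
    show FreeGroup.lift _ (FreeGroup.mk N) = _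
    induction N with
    | nil => simp [sm, ← FreeGroup.one_eq_mk]
    | cons q N ih =>
      obtain ⟨z, b⟩ := q
      have hs : FreeGroup.mk ((z, b) :: N) = FreeGroup.mk [(z, b)] * FreeGroup.mk N := by
        rw [FreeGroup.mul_mk]; rfl
      have h2 : sm (ind (ZMod m) x) ((z, b) :: N) =
        cond b (ind (ZMod m) x z) (-ind (ZMod m) x z) + sm (ind (ZMod m) x) N := by simp [sm]
      rw [hs, map_mul, ih, h2, ofAdd_add]
      congr 1
      cases b
      · have h1 : FreeGroup.mk [(z, false)] = (of z)⁻¹ := by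
          simp [FreeGroup.of, FreeGroup.inv_mk, FreeGroup.invRev]
        rw [h1, map_inv, FreeGroup.lift_apply_of]
        rfl
      · have h1 : FreeGroup.mk [(z, true)] = (of z) := rfl
        rw [h1, FreeGroup.lift_apply_of]
        rfl
  refine ⟨Multiplicative (ZMod m), inferInstance, inferInstance, ψ, ?_⟩
  intro hc
  rw [isConj_iff_eq, hψ, hψ] at hc
  have h1 : ((sm (ind ℤ x) L : ℤ) : ZMod m) = ((sm (ind ℤ x) M : ℤ) : ZMod m) :=
    Multiplicative.ofAdd.injective hc
  have h2 : ((d : ℤ) : ZMod m) = 0 := by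
    rw [hd]; push_cast; rw [h1]; simp
  rw [ZMod.intCast_zmod_eq_zero_iff_dvd] at h2
  have h3 := Int.natAbs_dvd_natAbs.2 h2
  have h4 := Nat.le_of_dvd (Int.natAbs_pos.2 hd0) h3
  simp only [m, Int.natAbs_natCast] at h4
  omega

theorem step (L M : List (X × Bool)) (hp : 1 < p) (x0 : X) (φ : X → ZMod p)
    (h0 : φ x0 = 1) (hL : sm φ L = 0) (hM : sm φ M = 0) (hx : ∃ b, (x0, b) ∈ L)
    (hn : ¬ IsConj (FreeGroup.mk L) (FreeGroup.mk M))
    (ih : ∀ L' M' : List ((X × ZMod p) × Bool), L'.length + M'.length < L.length + M.length →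
      ¬ IsConj (FreeGroup.mk L') (FreeGroup.mk M') →
      Sepd (FreeGroup.mk L') (FreeGroup.mk M')) :
    Sepd (FreeGroup.mk L) (FreeGroup.mk M) := by
  have : NeZero p := ⟨by omega⟩
  obtain ⟨i0, hi0⟩ := lw_lt x0 φ hp h0 L hx
  have key : ∀ j, Sepd (FreeGroup.mk (lw x0 φ L i0)) (FreeGroup.mk (lw x0 φ M j)) := by
    intro j
    apply ih
    · have := lw_le x0 φ M j
      omega
    · intro hc
      apply hn
      rw [mk_lw, mk_lw] at hc
      have h1 := (rho x0 φ).map_isConj hc
      rw [rho_Th x0 φ hp h0, rho_Th x0 φ hp h0, Th_t, Th_t, hL, hM, add_zero, add_zero] at h1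
      have h2 : IsConj (FreeGroup.mk L) (tr x0 i0 * FreeGroup.mk L * (tr x0 i0)⁻¹) :=
        isConj_iff.2 ⟨tr x0 i0, rfl⟩
      have h3 : IsConj (FreeGroup.mk M) (tr x0 j * FreeGroup.mk M * (tr x0 j)⁻¹) :=
        isConj_iff.2 ⟨tr x0 j, rfl⟩
      exact (h2.trans h1).trans h3.symm
  choose Q gQ fQ ψ hψ using key
  let ψ' : FreeGroup (X × ZMod p) →* (∀ j, Q j) := MonoidHom.pi ψ
  have hfin : Finite (∀ j, Q j) := inferInstance
  refine ⟨Wr p (∀ j, Q j), inferInstance, inferInstance, (Wr.map ψ').comp (Th x0 φ), ?_⟩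
  intro hc
  obtain ⟨j, hj⟩ := Wr.conj_f (a := Wr.map ψ' (Th x0 φ (FreeGroup.mk L)))
    (b := Wr.map ψ' (Th x0 φ (FreeGroup.mk M))) (by rw [Wr.map_t, Th_t, hM]) hc.symm i0
  have h1 := (Pi.evalMonoidHom Q j).map_isConj hj
  apply hψ j
  rw [mk_lw, mk_lw]
  exact h1.symm

theorem main : ∀ (n : ℕ) (X : Type u) (L M : List (X × Bool)), L.length + M.length < n →
    ¬ IsConj (FreeGroup.mk L) (FreeGroup.mk M) → Sepd (FreeGroup.mk L) (FreeGroup.mk M) := by
  intro n
  induction n with
  | zero => intro X L M h; omega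
  | succ n ih =>
    intro X L M hlen hn
    by_cases he : ∃ x, sm (ind ℤ x) L ≠ sm (ind ℤ x) M
    · obtain ⟨x, hx⟩ := he
      exact sep_of_exp hx
    · push Not at he
      -- general step
      have stp : ∀ (p : ℕ) (_ : 1 < p) (x0 : X) (φ : X → ZMod p), φ x0 = 1 → sm φ L = 0 →
          sm φ M = 0 → (∃ b, (x0, b) ∈ L ++ M) → Sepd (FreeGroup.mk L) (FreeGroup.mk M) := by
        rintro p hp x0 φ h0 hL hM ⟨b, hb⟩
        rcases List.mem_append.1 hb with h | h
        · refine step L M hp x0 φ h0 hL hM ⟨b, h⟩ hn ?_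
          intro L' M' hlt hc
          exact ih _ L' M' (by omega) hc
        · refine (step M L hp x0 φ h0 hM hL ⟨b, h⟩ (fun hc => hn hc.symm) ?_).symm
          intro L' M' hlt hc
          exact ih _ L' M' (by omega) hc
      by_cases ht : ∃ x y : X, x ≠ y ∧ (∃ b, (x, b) ∈ L ++ M) ∧ (∃ b, (y, b) ∈ L ++ M)
      · obtain ⟨x, y, hxy, hx, hy⟩ := ht
        by_cases hey : sm (ind ℤ y) L = 0
        · have hyM : sm (ind ℤ y) M = 0 := by rw [← he]; exact hey
          refine stp 2 (by norm_num) y (ind (ZMod 2) y) (by simp [ind]) ?_ ?_ hy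
          · rw [sm_one, hey]; simp
          · rw [sm_one, hyM]; simp
        · obtain ⟨p, hple, hp⟩ := Nat.exists_infinite_primes ((sm (ind ℤ y) L).natAbs + 1)
          have hF : Fact p.Prime := ⟨hp⟩
          have hne : ((sm (ind ℤ y) L : ℤ) : ZMod p) ≠ 0 := by
            intro h0
            rw [ZMod.intCast_zmod_eq_zero_iff_dvd] at h0
            have h3 := Int.natAbs_dvd_natAbs.2 h0
            have h4 := Nat.le_of_dvd (Int.natAbs_pos.2 hey) h3
            simp only [Int.natAbs_natCast] at h4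
            omega
          classical
          let φ : X → ZMod p := fun z => if z = x then 1 else if z = y then
            -(((sm (ind ℤ x) L : ℤ) : ZMod p)) * (((sm (ind ℤ y) L : ℤ) : ZMod p))⁻¹ else 0
          have hφx : φ x = 1 := by simp [φ]
          have hφy : φ y = -(((sm (ind ℤ x) L : ℤ) : ZMod p)) *
              (((sm (ind ℤ y) L : ℤ) : ZMod p))⁻¹ := by simp [φ, hxy.symm]
          have hφz : ∀ z, z ≠ x → z ≠ y → φ z = 0 := by
            intro z h1 h2; simp [φ, h1, h2]
          refine stp p hp.one_lt x φ hφx ?_ ?_ hx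
          · rw [sm_two x y φ hφz hxy, hφx, hφy]
            field_simp
            ring
          · rw [sm_two x y φ hφz hxy, hφx, hφy, ← he x, ← he y]
            field_simp
            ring
      · exfalso
        apply hn
        push Not at ht
        rcases (L ++ M).eq_nil_or_concat with h | ⟨A, q, h⟩
        · rw [List.append_eq_nil_iff] at h
          rw [h.1, h.2]
        · have hq : q ∈ L ++ M := by rw [h]; simp
          have hall : ∀ r ∈ L ++ M, r.1 = q.1 := by
            intro r hr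
            by_contra hne
            exact absurd hq (ht r.1 q.1 hne ⟨r.2, hr⟩ q.2)
          rw [all_same q.1 L (fun r hr => hall r (List.mem_append_left _ hr)),
            all_same q.1 M (fun r hr => hall r (List.mem_append_right _ hr)), he q.1]

/-- Free groups are conjugacy separable. -/
theorem free_conj_sep {X : Type u} (u v : FreeGroup X) (h : ¬ IsConj u v) :
    ∃ (Q : Type) (_ : Group Q) (_ : Finite Q) (ψ : FreeGroup X →* Q),
      ¬ IsConj (ψ u) (ψ v) := by
  classical
  have h1 := main ((u.toWord.length + v.toWord.length) + 1) X u.toWord v.toWord (by omega)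
  rw [FreeGroup.mk_toWord, FreeGroup.mk_toWord] at h1
  exact h1 h

end Pool.Agent.H5CS
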