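import Mathlib

/-!
Free groups are conjugacy separable (helper5, package B of row 1365).
-/

set_option autoImplicit false

namespace Pool.Agent.H5CS

universe u

/-- the wreath product of `G` with `ZMod p` -/
@[ext] structure Wr (p : ℕ) (G : Type*) where
  /-- the component in the power of `G` -/
  f : ZMod p → G
  /-- the component in `ZMod p` -/
  t : ZMod p

namespace Wr

variable {p : ℕ} {G H : Type*} [Group G] [Group H]

instance : Mul (Wr p G) := ⟨fun a b => ⟨fun i => a.f i * b.f (i + a.t), a.t + b.t⟩⟩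
instance : One (Wr p G) := ⟨⟨fun _ => 1, 0⟩⟩
instance : Inv (Wr p G) := ⟨fun a => ⟨fun i => (a.f (i - a.t))⁻¹, -a.t⟩⟩

@[simp] theorem mul_f (a b : Wr p G) (i : ZMod p) : (a * b).f i = a.f i * b.f (i + a.t) := rfl
@[simp] theorem mul_t (a b : Wr p G) : (a * b).t = a.t + b.t := rfl
@[simp] theorem one_f (i : ZMod p) : (1 : Wr p G).f i = 1 := rfl
@[simp] theorem one_t : (1 : Wr p G).t = 0 := rfl
@[simp] theorem inv_f (a : Wr p G) (i : ZMod p) : (a⁻¹).f i = (a.f (i - a.t))⁻¹ := rfl
@[simp] theorem inv_t (a : Wr p G) : (a⁻¹).t = -a.t := rfl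

instance : Group (Wr p G) := Group.ofLeftAxioms
  (by
    intro a b c
    ext i
    · simp [mul_assoc, add_assoc]
    · simp [add_assoc])
  (by
    intro a
    ext i
    · simp
    · simp)
  (by
    intro a
    ext i
    · simp [sub_eq_add_neg]
    · simp)

instance [NeZero p] [Finite G] : Finite (Wr p G) := by
  have : Finite ((ZMod p → G) × ZMod p) := inferInstance
  refine Finite.of_injective (fun a : Wr p G => (a.f, a.t)) ?_
  intro a b h
  simp only [Prod.mk.injEq] at h
  exact Wr.ext h.1 h.2

/-- functoriality -/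
def map (ψ : G →* H) : Wr p G →* Wr p H where
  toFun a := ⟨fun i => ψ (a.f i), a.t⟩
  map_one' := by ext i <;> simp
  map_mul' a b := by ext i <;> simp

@[simp] theorem map_f (ψ : G →* H) (a : Wr p G) (i : ZMod p) : (map ψ a).f i = ψ (a.f i) := rfl
@[simp] theorem map_t (ψ : G →* H) (a : Wr p G) : (map ψ a).t = a.t := rfl

theorem conj_f {a b : Wr p G} (hb : b.t = 0) (h : IsConj b a) (i : ZMod p) :
    ∃ j, IsConj (b.f j) (a.f i) := by
  obtain ⟨g, hg⟩ := isConj_iff.1 h
  refine ⟨i + g.t, isConj_iff.2 ⟨g.f i, ?_⟩⟩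
  have h1 := congrArg (fun z : Wr p G => z.f i) hg
  simp only [mul_f, mul_t, inv_f, hb] at h1
  rw [← h1]
  congr 3
  ring

end Wr

open FreeGroup (of)

variable {X : Type u} {p : ℕ}

/-- the cocycle on letters -/
noncomputable def cl (x0 : X) (x : X) (i : ZMod p) : FreeGroup (X × ZMod p) :=
  open Classical in if x = x0 ∧ i ≠ -1 then 1 else of (x, i)

/-- the embedding into the wreath product -/
noncomputable def Th (x0 : X) (φ : X → ZMod p) : FreeGroup X →* Wr p (FreeGroup (X × ZMod p)) :=
  FreeGroup.lift (fun x => ⟨cl x0 x, φ x⟩)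

theorem Th_of (x0 : X) (φ : X → ZMod p) (x : X) : Th x0 φ (of x) = ⟨cl x0 x, φ x⟩ := by
  simp [Th]

/-- the transversal -/
def tr (x0 : X) (i : ZMod p) : FreeGroup X := (of x0) ^ (i.val)

/-- back to `X` -/
def rho (x0 : X) (φ : X → ZMod p) : FreeGroup (X × ZMod p) →* FreeGroup X :=
  FreeGroup.lift (fun q => tr x0 q.2 * of q.1 * (tr x0 (q.2 + φ q.1))⁻¹)

theorem tr_succ (x0 : X) [NeZero p] (hp : 1 < p) (i : ZMod p) (hi : i ≠ -1) :
    tr x0 (i + 1) = tr x0 i * of x0 := by
  have h1 : (i + 1).val = i.val + 1 := by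
    have : Fact (1 < p) := ⟨hp⟩
    have hlt : i.val + 1 < p := by
      have := ZMod.val_lt i
      rcases Nat.lt_or_ge (i.val + 1) p with h | h
      · exact h
      · exfalso
        apply hi
        have h2 : i.val + 1 = p := by omega
        have h3 : ((i.val + 1 : ℕ) : ZMod p) = 0 := by rw [h2]; simp
        push_cast at h3
        rw [ZMod.natCast_zmod_val] at h3
        exact eq_neg_of_add_eq_zero_left h3
    rw [ZMod.val_add, ZMod.val_one, Nat.mod_eq_of_lt hlt]
  rw [tr, tr, h1, pow_succ]

theorem rho_cl (x0 : X) (φ : X → ZMod p) [NeZero p] (hp : 1 < p) (h0 : φ x0 = 1) (x : X)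
    (i : ZMod p) :
    rho x0 φ (cl x0 x i) = tr x0 i * of x * (tr x0 (i + φ x))⁻¹ := by
  unfold cl
  split_ifs with h
  · obtain ⟨rfl, hi⟩ := h
    rw [h0, tr_succ x hp i hi]
    simp
  · simp [rho]

theorem rho_Th (x0 : X) (φ : X → ZMod p) [NeZero p] (hp : 1 < p) (h0 : φ x0 = 1)
    (w : FreeGroup X) : ∀ i : ZMod p,
    rho x0 φ ((Th x0 φ w).f i) = tr x0 i * w * (tr x0 (i + (Th x0 φ w).t))⁻¹ := by
  induction w using FreeGroup.induction_on with
  | C1 => intro i; simp
  | of x =>
    intro i
    rw [Th_of]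
    exact rho_cl x0 φ hp h0 x i
  | inv_of x hx =>
    intro i
    rw [map_inv, Wr.inv_f, Wr.inv_t, map_inv, hx]
    simp only [Th_of, mul_inv_rev, inv_inv, sub_add_cancel]
    rw [sub_eq_add_neg]
    simp [mul_assoc]
  | mul x y hx hy =>
    intro i
    rw [map_mul, Wr.mul_f, Wr.mul_t, map_mul, hx, hy]
    simp [mul_assoc, add_assoc]

/-- lifting words -/
noncomputable def lw (x0 : X) (φ : X → ZMod p) : List (X × Bool) → ZMod p →
    List ((X × ZMod p) × Bool)
  | [], _ => []
  | (x, true) :: L, i => (open Classical in if x = x0 ∧ i ≠ -1 then [] else [((x, i), true)]) ++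
      lw x0 φ L (i + φ x)
  | (x, false) :: L, i => (open Classical in if x = x0 ∧ i - φ x ≠ -1 then [] else
      [((x, i - φ x), false)]) ++ lw x0 φ L (i - φ x)

theorem mk_lw (x0 : X) (φ : X → ZMod p) : ∀ (L : List (X × Bool)) (i : ZMod p),
    FreeGroup.mk (lw x0 φ L i) = (Th x0 φ (FreeGroup.mk L)).f i := by
  intro L
  induction L with
  | nil => intro i; simp [lw, ← FreeGroup.one_eq_mk]
  | cons q L ih =>
    intro i
    obtain ⟨x, b⟩ := q
    have hs : FreeGroup.mk ((x, b) :: L) = FreeGroup.mk [(x, b)] * FreeGroup.mk L := by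
      rw [FreeGroup.mul_mk]; rfl
    rw [hs, map_mul, Wr.mul_f]
    cases b
    · have h1 : FreeGroup.mk [(x, false)] = (of x)⁻¹ := by
        simp [FreeGroup.of, FreeGroup.inv_mk, FreeGroup.invRev]
      rw [h1, map_inv, Wr.inv_f, Wr.inv_t, Th_of, lw, ← FreeGroup.mul_mk, ih]
      simp only [cl]
      rw [← sub_eq_add_neg]
      congr 1
      split_ifs with h
      · simp [← FreeGroup.one_eq_mk]
      · simp [FreeGroup.of, FreeGroup.inv_mk, FreeGroup.invRev]
    · have h1 : FreeGroup.mk [(x, true)] = (of x) := rfl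
      rw [h1, Th_of, lw, ← FreeGroup.mul_mk, ih]
      simp only [cl]
      congr 1
      split_ifs with h
      · simp [← FreeGroup.one_eq_mk]
      · rfl

theorem lw_le (x0 : X) (φ : X → ZMod p) : ∀ (L : List (X × Bool)) (i : ZMod p),
    (lw x0 φ L i).length ≤ L.length := by
  intro L
  induction L with
  | nil => intro i; simp [lw]
  | cons q L ih =>
    intro i
    obtain ⟨x, b⟩ := q
    cases b
    · have := ih (i - φ x)
      simp only [lw, List.length_append, List.length_cons]
      split_ifs <;> simp <;> omega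
    · have := ih (i + φ x)
      simp only [lw, List.length_append, List.length_cons]
      split_ifs <;> simp <;> omega

theorem lw_lt (x0 : X) (φ : X → ZMod p) (hp : 1 < p) (h0 : φ x0 = 1) :
    ∀ (L : List (X × Bool)), (∃ b, (x0, b) ∈ L) → ∃ i : ZMod p,
    (lw x0 φ L i).length < L.length := by
  have : Fact (1 < p) := ⟨hp⟩
  have hne : (0 : ZMod p) ≠ -1 := by
    intro h
    have : (1 : ZMod p) = 0 := by
      have := congrArg Neg.neg h
      simpa using this.symm
    exact one_ne_zero this
  intro L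
  induction L with
  | nil => rintro ⟨b, hb⟩; simp at hb
  | cons q L ih =>
    rintro ⟨b, hb⟩
    obtain ⟨x, c⟩ := q
    rcases List.mem_cons.1 hb with h | h
    · obtain ⟨rfl, rfl⟩ := Prod.mk.inj h
      cases b
      · refine ⟨1, ?_⟩
        have := lw_le x0 φ L (1 - φ x0)
        simp only [lw, List.length_append, List.length_cons, h0, sub_self] at *
        rw [if_pos ⟨trivial, hne⟩]
        simp
        omega
      · refine ⟨0, ?_⟩
        have := lw_le x0 φ L (0 + φ x0)
        simp only [lw, List.length_append, List.length_cons, h0] at *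
        rw [if_pos ⟨trivial, hne⟩]
        simp only [List.length_nil]
        omega
    · obtain ⟨i, hi⟩ := ih ⟨b, h⟩
      cases c
      · refine ⟨i + φ x, ?_⟩
        simp only [lw, List.length_append, List.length_cons, add_sub_cancel_right]
        split_ifs <;> simp <;> omega
      · refine ⟨i - φ x, ?_⟩
        simp only [lw, List.length_append, List.length_cons, sub_add_cancel]
        split_ifs <;> simp <;> omega

end Pool.Agent.H5CS
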